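import Pool.Agent.TwGrpd.FiniteCase

set_option autoImplicit false

universe u v w

open Topology

namespace Pool.Agent.Results.MP_8a69f9_an.NotFull

open Pool.Agent.TwGrpd

/-- `C_c(G, Σ)`: continuous compactly supported functions `f : Σ → ℂ` with
`f (z σ) = conj z * f σ` for `z` in the circle. -/
structure CcFun {X G S : Type u} [TopologicalSpace X] [TopologicalSpace G] [TopologicalSpace S]
    {𝒢 : EtaleGroupoid X G} (T : Twist 𝒢 S) where
  /-- the function -/
  toFun : S → ℂ
  continuous : Continuous toFun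
  compact : HasCompactSupport toFun
  equivariant : ∀ (z : Circle) (σ : S), toFun (T.act z σ) = (starRingEnd ℂ) (z : ℂ) * toFun σ

/-- `φ` is a `*`-homomorphism from the `*`-algebra `C_c(G, Σ)` (pointwise linear operations, the
twisted convolution product `T.conv` and the involution `T.invol`) to the C*-algebra `A`. -/
structure IsStarHom {X G S : Type u} [TopologicalSpace X] [TopologicalSpace G]
    [TopologicalSpace S] {𝒢 : EtaleGroupoid X G} (T : Twist 𝒢 S)
    {A : Type w} [NonUnitalCStarAlgebra A] (φ : CcFun T → A) : Prop where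
  map_add : ∀ f g h : CcFun T, (∀ σ, h.toFun σ = f.toFun σ + g.toFun σ) → φ h = φ f + φ g
  map_smul : ∀ (c : ℂ) (f h : CcFun T), (∀ σ, h.toFun σ = c * f.toFun σ) → φ h = c • φ f
  map_mul : ∀ f g h : CcFun T, (∀ σ, h.toFun σ = T.conv f.toFun g.toFun σ) → φ h = φ f * φ g
  map_star : ∀ f h : CcFun T, (∀ σ, h.toFun σ = T.invol f.toFun σ) → φ h = star (φ f)

/-- `c` is the norm of the image of `f ∈ C_c(G, Σ)` under some `*`-representation `π` of
`C_c(G, Σ)` by bounded operators on some Hilbert space `K`. -/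
def IsRepNorm {X G S : Type u} [TopologicalSpace X] [TopologicalSpace G]
    [TopologicalSpace S] {𝒢 : EtaleGroupoid X G} (T : Twist 𝒢 S) (f : CcFun T) (c : ℝ) : Prop :=
  ∃ (K : Type u) (_ : NormedAddCommGroup K) (_ : InnerProductSpace ℂ K) (_ : CompleteSpace K)
    (π : CcFun T → (K →L[ℂ] K)), IsStarHom T π ∧ c = ‖π f‖

/-- The C*-algebra `A`, together with `ι : C_c(G, Σ) → A`, is the full twisted groupoid
C*-algebra `C*(G, Σ)`: `ι` is a `*`-homomorphism with dense range, and for every
`f ∈ C_c(G, Σ)` the norm `‖ι f‖` is the universal norm of `f`, i.e. the supremum of `‖π f‖` over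
all `*`-representations `π` of `C_c(G, Σ)` on Hilbert spaces. So `A` is the completion of
`C_c(G, Σ)` in the universal norm. -/
structure IsFullCStarAlgebra {X G S : Type u} [TopologicalSpace X] [TopologicalSpace G]
    [TopologicalSpace S] {𝒢 : EtaleGroupoid X G} (T : Twist 𝒢 S)
    {A : Type w} [NonUnitalCStarAlgebra A] (ι : CcFun T → A) : Prop where
  hom : IsStarHom T ι
  dense : DenseRange ι
  norm_eq : ∀ f : CcFun T, IsLUB {c : ℝ | IsRepNorm T f c} ‖ι f‖

section

variable {X G S : Type u} [TopologicalSpace X] [TopologicalSpace G] [TopologicalSpace S]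
  {𝒢 : EtaleGroupoid X G} (T : Twist 𝒢 S)

/-- The two versions of `C_c(G, Σ)` agree. -/
def toCcFun (f : T.Cc) : CcFun T := ⟨f.1, f.2.1, f.2.2.1, f.2.2.2⟩

/-- The two versions of `C_c(G, Σ)` agree. -/
def ofCcFun (f : CcFun T) : T.Cc := ⟨f.toFun, f.continuous, f.compact, f.equivariant⟩

variable [T2Space G] [LocallyCompactSpace G] [T2Space S]

/-- The bundled `*`-homomorphism. -/
noncomputable def toHom {A : Type w} [NonUnitalCStarAlgebra A] {φ : CcFun T → A}
    (hφ : IsStarHom T φ) : T.Cc →⋆ₙₐ[ℂ] A where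
  toFun f := φ (toCcFun T f)
  map_smul' c f := hφ.map_smul c (toCcFun T f) (toCcFun T (c • f)) fun σ => rfl
  map_zero' := by
    have h := hφ.map_smul 0 (toCcFun T 0) (toCcFun T 0) fun σ => by simp [toCcFun]
    rw [zero_smul] at h
    exact h
  map_add' f g := hφ.map_add (toCcFun T f) (toCcFun T g) (toCcFun T (f + g)) fun σ => rfl
  map_mul' f g := hφ.map_mul (toCcFun T f) (toCcFun T g) (toCcFun T (f * g)) fun σ => rfl
  map_star' f := hφ.map_star (toCcFun T f) (toCcFun T (star f)) fun σ => rfl

/-- The regular representations are representations in the above sense. -/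
theorem isStarHom_regRep (x : X) : IsStarHom T (fun f : CcFun T => T.regRep x (ofCcFun T f)) where
  map_add f g h hh := by
    have : ofCcFun T h = ofCcFun T f + ofCcFun T g := Subtype.ext (funext hh)
    rw [this]; exact map_add _ _ _
  map_smul c f h hh := by
    have : ofCcFun T h = c • ofCcFun T f := Subtype.ext (funext hh)
    rw [this]; exact map_smul _ _ _
  map_mul f g h hh := by
    have : ofCcFun T h = ofCcFun T f * ofCcFun T g := Subtype.ext (funext hh)
    rw [this]; exact map_mul _ _ _
  map_star f h hh := by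
    have : ofCcFun T h = star (ofCcFun T f) := Subtype.ext (funext hh)
    rw [this]; exact map_star _ _

end

/-- For every infinite-dimensional Hilbert space `H`, every locally compact Hausdorff étale
groupoid `G` and every twist `Σ` over `G`, the C*-algebra `B(H)` is not isomorphic to the full
twisted groupoid C*-algebra `C*(G, Σ)`. -/
theorem result (H : Type v) [NormedAddCommGroup H] [InnerProductSpace ℂ H] [CompleteSpace H]
    (hH : ¬ FiniteDimensional ℂ H)
    (X G S : Type u) [TopologicalSpace X] [TopologicalSpace G] [TopologicalSpace S]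
    [T2Space G] [LocallyCompactSpace G] [T2Space S]
    (𝒢 : EtaleGroupoid X G) (T : Twist 𝒢 S)
    (A : Type w) [NonUnitalCStarAlgebra A] (ι : CcFun T → A) (hA : IsFullCStarAlgebra T ι) :
    IsEmpty ((H →L[ℂ] H) ≃⋆ₐ[ℂ] A) := by
  refine ⟨fun e => ?_⟩
  let ι' : T.Cc →⋆ₙₐ[ℂ] A := toHom T hA.hom
  let j : T.Cc →⋆ₙₐ[ℂ] (H →L[ℂ] H) := (e.symm.toNonUnitalStarAlgHom).comp ι'
  have hj : ∀ f, ‖j f‖ = ‖ι' f‖ := fun f =>
    NonUnitalStarAlgHom.norm_map (e.symm.toNonUnitalStarAlgHom) e.symm.injective (ι' f)
  have hiso : Isometry (e.symm.toNonUnitalStarAlgHom) :=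
    NonUnitalStarAlgHom.isometry _ e.symm.injective
  have hdense : DenseRange ι' := by
    have h2 : Set.range ι' = Set.range ι := by
      ext a
      constructor
      · rintro ⟨f, rfl⟩; exact ⟨_, rfl⟩
      · rintro ⟨f, rfl⟩; exact ⟨ofCcFun T f, rfl⟩
    rw [DenseRange, h2]
    exact hA.dense
  refine T.not_denseRange j hH ?_ ?_
  · intro x f
    rw [hj]
    exact (hA.norm_eq (toCcFun T f)).1 ⟨L2 (𝒢.Fib x), inferInstance, inferInstance, inferInstance,
      _, isStarHom_regRep T x, rfl⟩
  · exact (e.symm.surjective.denseRange).comp hdense hiso.continuous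

end Pool.Agent.Results.MP_8a69f9_an.NotFull
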